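import Pool.Agent.H164R2.Strong
import Pool.Agent.Helper998.Near.Flow

set_option autoImplicit false
set_option linter.unusedSectionVars false

/-!
Strong circuit double covers through a single circuit `C` from two even subgraphs covering all
edges outside `C` (a nowhere-zero 4-flow of `G / E(C)`).
-/

open Finset

namespace Pool.Agent.R20

open Pool.Agent.Helper347.Sab
open Pool.Agent.Helper998.Near (Rch join rch_symm)

variable {V E : Type} [Fintype V] [DecidableEq V] [Fintype E] [DecidableEq E]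

/-- completion of an edge set inside a circuit -/
theorem complete_in (G : MGraph V E) (C M : Finset E) (hC : IsCircuit G C)
    (hCM : Disjoint C M) (hM : ∀ v, dg G C v = 0 → Even (dg G M v)) :
    ∃ J ⊆ C, Ev G (M ∪ J) := by
  obtain ⟨e0, he0⟩ := hC.1
  obtain ⟨p0, p1, hp01, hends0⟩ := exists_ends G e0
  have hp0 : dg G C p0 = 2 := (hC.2.1 p0).resolve_left (by
    have := dg_pos_of_mem (G := G) he0 (show p0 ∈ G.ends e0 by rw [hends0]; simp); omega)
  obtain ⟨J, hJC, hJ⟩ := Pool.Agent.Helper998.Near.join G C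
    (fun v => ((dg G M v : ℕ) : ZMod 2)) (fun _ => p0) (by
    intro v hv
    apply Pool.Agent.Helper998.Near.circ_reach G C hC v p0 _ hp0
    rcases hC.2.1 v with h | h
    · exact absurd ((Pool.Agent.Helper998.Near.even_iff_cast _).1 (hM v h)) hv
    · exact h)
  have hJ' : ∀ x, ((dg G J x : ℕ) : ZMod 2) = ((dg G M x : ℕ) : ZMod 2) := by
    intro x
    rw [hJ x]
    have h1 : ∑ v, ((dg G M v : ℕ) : ZMod 2) = 0 := by
      rw [← Nat.cast_sum]
      exact (Pool.Agent.Helper998.Near.even_iff_cast _).1 (handshake G M)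
    by_cases hx : x = p0
    · simp [hx, h1]
    · simp [hx]
  refine ⟨J, hJC, fun v => ?_⟩
  have h1 := dg_sdiff (G := G) (X := M ∪ J) (Y := M) subset_union_left v
  have h3 : (M ∪ J) \ M = J := by
    rw [union_sdiff_left]
    exact sdiff_eq_self_of_disjoint (disjoint_of_subset_left hJC hCM)
  rw [h3] at h1
  rw [Pool.Agent.Helper998.Near.even_iff_cast, ← h1, Nat.cast_add, hJ' v]
  exact CharTwo.add_self_eq_zero _

/-- restriction of an even edge set to the component of `v` in `G - E(C)`, up to edges of `C` -/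
theorem restrict (G : MGraph V E) (C : Finset E) (hC : IsCircuit G C) (D : Finset E)
    (hD : Ev G D) (v : V) :
    ∃ D', Ev G D' ∧ ∀ f, f ∉ C →
      (f ∈ D' ↔ f ∈ D ∧ ∀ u ∈ G.ends f, Rch G (univ \ C) v u) := by
  classical
  obtain ⟨M, hM⟩ : ∃ M : Finset E, M = univ.filter fun f =>
      f ∈ D ∧ f ∉ C ∧ ∀ u ∈ G.ends f, Rch G (univ \ C) v u := ⟨_, rfl⟩
  have hMm : ∀ f, f ∈ M ↔ f ∈ D ∧ f ∉ C ∧ ∀ u ∈ G.ends f, Rch G (univ \ C) v u := by
    intro f; rw [hM]; simp
  obtain ⟨J, hJC, hJ⟩ := complete_in G C M hC (by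
    rw [disjoint_left]
    intro f h1 h2
    exact ((hMm f).1 h2).2.1 h1) (by
    intro w hw
    by_cases hr : Rch G (univ \ C) v w
    · have h1 : (M.filter fun e => w ∈ G.ends e) = D.filter fun e => w ∈ G.ends e := by
        ext f
        rw [mem_filter, mem_filter, hMm]
        constructor
        · rintro ⟨⟨h2, _⟩, h3⟩; exact ⟨h2, h3⟩
        · rintro ⟨h2, h3⟩
          have h4 : f ∉ C := by
            intro h5
            have := dg_pos_of_mem (G := G) h5 h3
            omega
          refine ⟨⟨h2, h4, fun u hu => ?_⟩, h3⟩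
          by_cases huw : w = u
          · rw [← huw]; exact hr
          · exact hr.tail ⟨f, mem_sdiff.2 ⟨mem_univ _, h4⟩, (Sym2.mem_and_mem_iff huw).1 ⟨h3, hu⟩⟩
      show Even (M.filter fun e => w ∈ G.ends e).card
      rw [h1]
      exact hD w
    · have h1 : (M.filter fun e => w ∈ G.ends e) = ∅ := by
        rw [filter_eq_empty_iff]
        intro f hf hwf
        exact hr (((hMm f).1 hf).2.2 w hwf)
      show Even (M.filter fun e => w ∈ G.ends e).card
      rw [h1]
      exact Even.zero)
  refine ⟨M ∪ J, hJ, fun f hf => ?_⟩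
  rw [mem_union, hMm]
  constructor
  · rintro (h | h)
    · exact ⟨h.1, h.2.2⟩
    · exact absurd (hJC h) hf
  · rintro ⟨h1, h2⟩
    exact Or.inl ⟨h1, hf, h2⟩

/-- If two even subgraphs `A`, `B` of a cubic graph cover all edges outside the circuit `C`, then
some circuit double cover contains `C`. -/
theorem strong_of_four (G : MGraph V E) (hG : IsCubic G) (C A B : Finset E) (hC : IsCircuit G C)
    (hA : Ev G A) (hB : Ev G B) (hcov : ∀ e, e ∉ C → e ∈ A ∨ e ∈ B) :
    ∃ F : Multiset (Finset E), IsCDC G F ∧ C ∈ F := by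
  classical
  obtain ⟨F, h1, h2, h3⟩ := Pool.Agent.H164R2.strong G univ C (subset_univ _)
    (fun v => le_of_eq (hG v)) hC.2.1 (by
    intro v
    obtain ⟨A', hA', hA''⟩ := restrict G C hC A hA v
    obtain ⟨B', hB', hB''⟩ := restrict G C hC B hB v
    refine ⟨A', B', hA', hB', subset_univ _, subset_univ _, ?_, ?_⟩
    · rintro f hf (h | h)
      · exact ((hA'' f hf).1 h).2
      · exact ((hB'' f hf).1 h).2
    · intro f _ hf h
      rcases hcov f hf with h4 | h4
      · exact Or.inl ((hA'' f hf).2 ⟨h4, h⟩)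
      · exact Or.inr ((hB'' f hf).2 ⟨h4, h⟩))
  refine ⟨F, ⟨h1, fun e => ?_⟩, h3 C hC (Subset.refl _)⟩
  rw [h2 e, if_pos (mem_univ _)]

/-- If `C ∪ A` is connected and spanning for an even subgraph `A`, then some circuit double cover
of the cubic graph contains `C`. -/
theorem strong_of_trail (G : MGraph V E) (hG : IsCubic G) (C A : Finset E) (hC : IsCircuit G C)
    (hA : Ev G A)
    (hCA : Pool.Agent.Results.MP_0c3aa4_co.ThroughDominating.Connected G (C ∪ A)) :
    ∃ F : Multiset (Finset E), IsCDC G F ∧ C ∈ F := by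
  obtain ⟨B, hB1, hB2⟩ := Pool.Agent.Helper998.Near.trail_flow G C A hA hCA
  exact strong_of_four G hG C A B hC hA hB1 hB2

end Pool.Agent.R20
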